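import Pool.Agent.AEN.Stmts

/-!
# Anderson model, the cheap end, row POS (helper81)
-/

set_option autoImplicit false

open MeasureTheory ProbabilityTheory Function Filter

open scoped ENNReal BigOperators InnerProductSpace Topology

noncomputable section

namespace Pool.Agent.AEN.H81

open Pool.Agent.Anderson Pool.Agent.Loc Pool.Agent.Helper54.Bal
open Pool.Agent.QE (im_G_del')

theorem cont_Gn (d : ℕ) (E : ℝ) (n : ℕ) (x : Site d) :
    Continuous fun V : Site d → ℝ => Gn V E n x := by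
  have h0 : Continuous fun V : Site d → ℝ => (V, E, (del x : L2 d)) :=
    continuous_id.prodMk continuous_const
  have h := (continuous_G (d := d) (η := et n) (et_pos n).ne').comp h0
  unfold Gn zn
  exact h

/-- row POS -/
theorem pos (hMon : MonStmt) : PosStmt := by
  intro d σ E p h
  let S : ℕ → Set (Site d → ℝ) := fun m => {V | ∃ n : ℕ, (m : ℝ) ≤ ‖Gn V E n 0‖ ^ 2}
  have hS : ∀ m, MeasurableSet (S m) := by
    intro m
    have e : S m = ⋃ n : ℕ, {V : Site d → ℝ | (m : ℝ) ≤ ‖Gn V E n 0‖ ^ 2} := by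
      ext V
      rw [Set.mem_iUnion]
      rfl
    rw [e]
    exact MeasurableSet.iUnion fun n =>
      measurableSet_le measurable_const ((cont_Gn d E n 0).norm.pow 2).measurable
  have hanti : Antitone S := by
    rintro a b hab V ⟨n, hn⟩
    exact ⟨n, (Nat.cast_le.2 hab).trans hn⟩
  have hp : ∀ m, p ≤ PP d (gl σ) (S m) := by
    intro m
    obtain ⟨η, hη, h1⟩ := h m
    refine h1.trans (measure_mono ?_)
    intro V hV
    have hz : (zz η E).im ≠ 0 := by
      rw [zz_im]
      exact hη.ne'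
    obtain ⟨n, hn⟩ : ∃ n : ℕ, et n < η := by
      have h2 := (tendsto_order.1 tendsto_et).2 η hη
      exact h2.exists
    have h3 : (m : ℝ) * η ≤ η * ‖G V (zz η E) (del 0)‖ ^ 2 := by
      have h4 : (m : ℝ) * η ≤ (G V (zz η E) (del 0) 0).im := hV
      rw [im_G_del' hz, zz_im] at h4
      exact h4
    have h5 : (m : ℝ) ≤ ‖G V (zz η E) (del 0)‖ ^ 2 := by
      rw [mul_comm] at h3
      exact le_of_mul_le_mul_left h3 hη
    refine ⟨n, h5.trans ?_⟩
    exact pow_le_pow_left₀ (norm_nonneg _) (hMon d V E (del 0) (et n) η (et_pos n) hn.le) 2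
  have hI : (⋂ m, S m) ⊆ {V | ¬ Bd V E 0} := by
    rintro V hV ⟨C, hC⟩
    obtain ⟨m, hm⟩ := exists_nat_gt (C ^ 2)
    obtain ⟨n, hn⟩ := Set.mem_iInter.1 hV m
    have h1 := pow_le_pow_left₀ (norm_nonneg _) (hC n) 2
    linarith
  refine le_trans ?_ (measure_mono hI)
  rw [hanti.measure_iInter (fun m => (hS m).nullMeasurableSet) ⟨0, measure_ne_top _ _⟩]
  exact le_iInf hp

end Pool.Agent.AEN.H81
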